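import Mathlib
import Pool.Agent.H170Z.Bruhat.Defs
import Pool.Agent.H170Z.Bruhat.Bridge

set_option autoImplicit false

namespace Pool.Agent.Results.MP_93b8e4_co.ASmoothAscent

open Pool.Agent.H170Z.BruhatA

/-- For every `n` and all `u < w` in the symmetric group `S_(n+1)` with `[u, w]` smooth there is a
simple reflection `s` with `s u > u` such that `s u ≰ w` or `s w < w`. -/
theorem result (n : ℕ) (u w : Equiv.Perm (Fin (n + 1))) (huw : BLt u w) (hs : IsSmooth u w) :
    ∃ i : Fin n, BLt u (simple i * u) ∧ (¬ BLe (simple i * u) w ∨ BLt (simple i * w) w) :=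
  Pool.Agent.H170Z.Bruhat.main_left u w huw hs

end Pool.Agent.Results.MP_93b8e4_co.ASmoothAscent
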